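import Pool.Agent.Q205.LV.Trm
import Pool.Agent.Q205.LV.Ge
import Pool.Agent.Q205.LV.Str
import Pool.Agent.Q205.LV.Pr
import Pool.Agent.Q205.LV.Tt
import Pool.Agent.Q205.LV.Cpy
import Pool.Agent.Q205.LV.E2p

/-!
# Levitz's class is not a basis for punctual standardness

There is a punctual copy `A` of `(ℕ, S)` on which all functions of Levitz's class are primitive
recursive, and which is not punctually standard.

Idea of the proof. By Rolle's theorem (a weak form of Khovanskii's theorem) there is a primitive
recursive bound for the number of coincidences of two terms built from the variable and constants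
by addition, multiplication and exponentiation, if they are not equal everywhere. So the equality
of such terms is primitive recursive. The elements of the copy are the natural numbers and, for
each `e`, the (classes of) nonconstant terms in an unknown `x_e` with codes below `T e`, where `T`
is a function which is not bounded by a primitive recursive function but has a primitive recursive
graph; the value of `x_e` is a number `≥ T e` for which different terms have different values.
-/

set_option autoImplicit false

namespace Pool.Agent.Results.MP_6adfe4_lc.LevitzNotBasis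

open Pool.Agent.Q205.LV

/-- Levitz's class. -/
inductive Levitz : (ℕ → ℕ) → Prop
  | zero : Levitz (fun _ => 0)
  | one : Levitz (fun _ => 1)
  | id : Levitz (fun x => x)
  | add (f g : ℕ → ℕ) : Levitz f → Levitz g → Levitz (fun x => f x + g x)
  | mul (f g : ℕ → ℕ) : Levitz f → Levitz g → Levitz (fun x => f x * g x)
  | expConst (n : ℕ) (f : ℕ → ℕ) : 1 ≤ n → Levitz f → Levitz (fun x => n ^ f x)
  | expVar (f : ℕ → ℕ) : Levitz f → Levitz (fun x => x ^ f x)

/-- A copy of `(ℕ, S)`, `S n = n + 1`, with domain `ℕ`: its successor function `succ` and the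
isomorphism `iso` from `(ℕ, S)` to the copy (it is unique). -/
structure Copy where
  succ : ℕ → ℕ
  iso : ℕ ≃ ℕ
  iso_succ : ∀ n, iso (n + 1) = succ (iso n)

/-- The function `f^A` on the copy `A`. -/
def Copy.transfer (A : Copy) {n : ℕ} (f : (Fin n → ℕ) → ℕ) : (Fin n → ℕ) → ℕ :=
  fun a => A.iso (f (fun i => A.iso.symm (a i)))

/-- The function `f^A` for a function `f` with one argument. -/
def Copy.transfer1 (A : Copy) (f : ℕ → ℕ) : ℕ → ℕ := fun a => A.iso (f (A.iso.symm a))

/-- The copy is punctual: its successor function is primitive recursive. -/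
def Copy.Punctual (A : Copy) : Prop := Primrec A.succ

/-- The copy is punctually standard: exactly the primitive recursive functions are primitive
recursive on `A`. -/
def Copy.Standard (A : Copy) : Prop :=
  ∀ (n : ℕ) (f : (Fin n → ℕ) → ℕ), Primrec (A.transfer f) ↔ Primrec f

/-- Each function of Levitz's class is given by a primitive recursive operation on terms. -/
theorem sub_of_levitz {f : ℕ → ℕ} (h : Levitz f) : Primrec f ∧
    ∃ s : ℕ → ℕ, Primrec s ∧ ∀ n t, ev n (s t) = f (ev n t) := by
  have pA : Primrec₂ tA := evs.2.2.2.1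
  have pM : Primrec₂ tM := evs.2.2.2.2.1
  have pP : Primrec₂ tP := evs.2.2.2.2.2
  induction h with
  | zero => exact ⟨Primrec.const 0, fun _ => tC 0, Primrec.const _, fun n t => ev_tC n 0⟩
  | one => exact ⟨Primrec.const 1, fun _ => tC 1, Primrec.const _, fun n t => ev_tC n 1⟩
  | id => exact ⟨Primrec.id, fun t => t, Primrec.id, fun n t => rfl⟩
  | add f g _ _ ihf ihg =>
    obtain ⟨pf, s, hs, hs2⟩ := ihf
    obtain ⟨pg, s', hs', hs2'⟩ := ihg
    refine ⟨Primrec.nat_add.comp pf pg, fun t => tA (s t) (s' t), pA.comp hs hs', fun n t => ?_⟩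
    rw [ev_tA, hs2, hs2']
  | mul f g _ _ ihf ihg =>
    obtain ⟨pf, s, hs, hs2⟩ := ihf
    obtain ⟨pg, s', hs', hs2'⟩ := ihg
    refine ⟨Primrec.nat_mul.comp pf pg, fun t => tM (s t) (s' t), pM.comp hs hs', fun n t => ?_⟩
    rw [ev_tM, hs2, hs2']
  | expConst k f _ _ ihf =>
    obtain ⟨pf, s, hs, hs2⟩ := ihf
    refine ⟨primrec_npow'.comp (Primrec.const k) pf, fun t => tP (tC k) (s t),
      pP.comp (Primrec.const _) hs, fun n t => ?_⟩
    rw [ev_tP, ev_tC, hs2]
  | expVar f _ ihf =>
    obtain ⟨pf, s, hs, hs2⟩ := ihf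
    refine ⟨primrec_npow'.comp Primrec.id pf, fun t => tP t (s t), pP.comp Primrec.id hs,
      fun n t => ?_⟩
    rw [ev_tP, hs2]

/-- **Levitz's class is not a basis for punctual standardness.** -/
theorem result : ∃ A : Copy, A.Punctual ∧
    (∀ f : ℕ → ℕ, Levitz f → Primrec (A.transfer1 f)) ∧ ¬ A.Standard := by
  obtain ⟨T, nn, D, val, c, name, pD, pc, pname, hc, hinj, hname, hcase, hT, hT2⟩ :=
    str zpr evs ge trm tt
  obtain ⟨iso, h1, h2⟩ := cpy D val c pD pc hc hinj
  have key : ∀ f : ℕ → ℕ, Levitz f → Primrec fun n => iso (f (iso.symm n)) := by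
    intro f hf
    obtain ⟨pf, s, hs, hs2⟩ := sub_of_levitz hf
    refine h1 f (fun a => if a % 2 = 0 then c (f (a / 2)) else
      name (a / 2).unpair.1 (s (a / 2).unpair.2)) ?_ ?_
    · have pd2 : Primrec fun a : ℕ => a / 2 := Primrec.nat_div.comp Primrec.id (Primrec.const 2)
      have pm2 : Primrec fun a : ℕ => a % 2 := Primrec.nat_mod.comp Primrec.id (Primrec.const 2)
      exact Primrec.ite (Primrec.eq.comp pm2 (Primrec.const 0)) (pc.comp (pf.comp pd2))
        (pname.comp (Primrec.fst.comp (Primrec.unpair.comp pd2))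
          (hs.comp (Primrec.snd.comp (Primrec.unpair.comp pd2))))
    · intro a ha
      rcases hcase a ha with ⟨a1, a2⟩ | ⟨a1, a2⟩
      · simp only [a1, if_true]
        rw [a2]
        exact hc _
      · have h0 : ¬ a % 2 = 0 := by omega
        simp only [h0, if_false]
        rw [a2, ← hs2]
        exact hname _ _
  have hsucc : Primrec fun n => iso (iso.symm n + 1) :=
    key (fun x => x + 1) (Levitz.add _ _ Levitz.id Levitz.one)
  obtain ⟨A, hA⟩ : ∃ A : Copy, A = ⟨fun n => iso (iso.symm n + 1), iso, fun n => by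
    rw [Equiv.symm_apply_apply]⟩ := ⟨_, rfl⟩
  refine ⟨A, ?_, ?_, ?_⟩
  · rw [hA]
    exact hsucc
  · intro f hf
    rw [hA]
    exact key f hf
  · intro hstd
    have h3 : Primrec (A.transfer Pool.Agent.Q205.EB.rfun) :=
      (hstd 3 _).2 (e2_primrec Pool.Agent.Q205.EB.rfun_e2)
    rw [hA] at h3
    obtain ⟨-, h4⟩ := Pool.Agent.Q205.EB.main iso hsucc h3
    obtain ⟨g, hg, hg2⟩ := h2 h4
    obtain ⟨e, he⟩ := hT2 (fun e => g (name e 0)) (hg.comp (pname.comp Primrec.id
      (Primrec.const 0)))
    have h5 := hname e 0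
    rw [hg2 _ h5.1, h5.2, ev_zero] at he
    have := hT e
    omega

end Pool.Agent.Results.MP_6adfe4_lc.LevitzNotBasis
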